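import Pool.Agent.W448.FF.Stmts

/-! Project FF: the final numerical inequality. -/

set_option autoImplicit false

namespace Pool.Agent.W806.FF

open Pool.Agent.W448.FF

theorem num : S_NUM := by
  intro r τ g hr hr' hτ hg
  have h1 : 27 / 5 * r ≤ g := by
    rcases hg with h | h <;> linarith
  have h2 : 27 / 5 * r * (τ ^ 2 / 2) ≤ g * (τ ^ 2 / 2) :=
    mul_le_mul_of_nonneg_right h1 (by positivity)
  constructor
  · intro h
    have hs : 0 ≤ r - τ := sub_nonneg.2 h
    have h3 := mul_nonneg hs (sq_nonneg (r - τ - 6 / 5 * τ))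
    have h4 := mul_nonneg hτ (sq_nonneg (r - τ - τ))
    have h5 := mul_nonneg hs (sq_nonneg τ)
    have h6 : 0 ≤ τ ^ 3 := by positivity
    nlinarith [h2, h3, h4, h5, h6]
  · intro h
    have h3 : r ^ 2 ≤ τ ^ 2 := pow_le_pow_left₀ hr h 2
    have h4 : 27 / 5 * r * (r ^ 2 / 2) ≤ 27 / 5 * r * (τ ^ 2 / 2) :=
      mul_le_mul_of_nonneg_left (by linarith) (by positivity)
    have h5 : 0 ≤ r ^ 3 := by positivity
    nlinarith [h2, h4, h5]

end Pool.Agent.W806.FF
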